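import Pool.Agent.T2h95.QR.Geo

set_option autoImplicit false

open Filter Topology

namespace Pool.Agent.T2h95.QR

variable {E : Type*} [NormedAddCommGroup E] [InnerProductSpace ℂ E]

/-- first-order optimality: in every direction there is a norming vector -/
theorem optimal_direction [FiniteDimensional ℂ E] [Nontrivial E] {B : E →L[ℂ] E}
    (hB : ∀ c : ℂ, ‖B‖ ≤ ‖B - c • (1 : E →L[ℂ] E)‖) (e : ℂ) :
    ∃ y : E, ‖y‖ = 1 ∧ ‖B y‖ = ‖B‖ ∧ ((starRingEnd ℂ) e * inner ℂ y (B y)).re ≤ 0 := by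
  have hprop : ProperSpace E := FiniteDimensional.proper_rclike ℂ E
  set t : ℕ → ℝ := fun m => 1 / ((m : ℝ) + 1) with ht
  have htpos : ∀ m, 0 < t m := fun m => by simp only [ht]; positivity
  have htlim : Tendsto t atTop (𝓝 0) := tendsto_one_div_add_atTop_nhds_zero_nat
  choose y hy1 hy2 using fun m => exists_norming (B - ((t m : ℂ) * e) • (1 : E →L[ℂ] E))
  have hR : ∀ m, ‖B‖ ≤ ‖B (y m) - ((t m : ℂ) * e) • y m‖ := by
    intro m
    have h1 := hB ((t m : ℂ) * e)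
    rw [← hy2 m] at h1
    simpa using h1
  have hmem : ∀ m, y m ∈ Metric.sphere (0 : E) 1 := fun m => by
    rw [mem_sphere_zero_iff_norm]; exact hy1 m
  obtain ⟨a, ha, φ, hφ, hlim⟩ := (isCompact_sphere (0 : E) 1).tendsto_subseq hmem
  have ha1 : ‖a‖ = 1 := mem_sphere_zero_iff_norm.mp ha
  have htφ : Tendsto (fun m => t (φ m)) atTop (𝓝 0) := htlim.comp hφ.tendsto_atTop
  have htφc : Tendsto (fun m => ((t (φ m) : ℝ) : ℂ) * e) atTop (𝓝 0) := by
    have := ((Complex.continuous_ofReal.tendsto 0).comp htφ).mul_const e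
    simpa using this
  refine ⟨a, ha1, le_antisymm ?_ ?_, ?_⟩
  · simpa [ha1] using B.le_opNorm a
  · have h1 : Tendsto (fun m => ‖B (y (φ m)) - (((t (φ m) : ℝ) : ℂ) * e) • y (φ m)‖) atTop
        (𝓝 ‖B a - (0 : ℂ) • a‖) :=
      (((B.continuous.tendsto a).comp hlim).sub (htφc.smul hlim)).norm
    rw [zero_smul, sub_zero] at h1
    exact ge_of_tendsto' h1 fun m => hR (φ m)
  · have h2 : ∀ m, ((starRingEnd ℂ) e * inner ℂ (y m) (B (y m))).re ≤ t m * ‖e‖ ^ 2 / 2 := by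
      intro m
      have h3 := hR m
      have h4 : ‖B‖ ^ 2 ≤ ‖B (y m) - ((t m : ℂ) * e) • y m‖ ^ 2 :=
        pow_le_pow_left₀ (norm_nonneg _) h3 2
      rw [norm_sub_sq (𝕜 := ℂ), norm_smul, hy1 m, mul_one, norm_mul, Complex.norm_real,
        Real.norm_eq_abs, abs_of_pos (htpos m), inner_smul_right] at h4
      have h5 : ‖B (y m)‖ ^ 2 ≤ ‖B‖ ^ 2 := by
        refine pow_le_pow_left₀ (norm_nonneg _) ?_ 2
        simpa [hy1 m] using B.le_opNorm (y m)
      have h6 : RCLike.re (((t m : ℂ) * e) * inner ℂ (B (y m)) (y m)) =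
          t m * ((starRingEnd ℂ) e * inner ℂ (y m) (B (y m))).re := by
        have h7 : ((t m : ℂ) * e) * inner ℂ (B (y m)) (y m) =
            (t m : ℂ) * (starRingEnd ℂ) ((starRingEnd ℂ) e * inner ℂ (y m) (B (y m))) := by
          rw [map_mul, Complex.conj_conj, inner_conj_symm]; ring
        rw [h7]
        change ((t m : ℂ) * (starRingEnd ℂ) ((starRingEnd ℂ) e * inner ℂ (y m) (B (y m)))).re = _
        rw [Complex.re_ofReal_mul, Complex.conj_re]
      rw [h6] at h4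
      have h8 : 2 * t m * ((starRingEnd ℂ) e * inner ℂ (y m) (B (y m))).re ≤ t m ^ 2 * ‖e‖ ^ 2 := by
        have := mul_pow (t m) ‖e‖ 2
        nlinarith
      have h9 := htpos m
      have h10 : t m * (2 * ((starRingEnd ℂ) e * inner ℂ (y m) (B (y m))).re) ≤
          t m * (t m * ‖e‖ ^ 2) := by nlinarith
      have := le_of_mul_le_mul_left h10 h9
      linarith
    have h3 : Tendsto (fun m => ((starRingEnd ℂ) e * inner ℂ (y (φ m)) (B (y (φ m)))).re) atTop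
        (𝓝 ((starRingEnd ℂ) e * inner ℂ a (B a)).re) := by
      refine (Complex.continuous_re.tendsto _).comp (Tendsto.const_mul _ ?_)
      exact hlim.inner ((B.continuous.tendsto a).comp hlim)
    have h4 : Tendsto (fun m => t (φ m) * ‖e‖ ^ 2 / 2) atTop (𝓝 0) := by
      have := (htφ.mul_const (‖e‖ ^ 2)).div_const 2
      simpa using this
    exact le_of_tendsto_of_tendsto' h3 h4 fun m => h2 (φ m)

/-- Stampfli: at the best scalar approximation there is a norming vector `x` with `⟨Bx,x⟩ = 0` -/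
theorem stampfli [FiniteDimensional ℂ E] [Nontrivial E] {B : E →L[ℂ] E}
    (hB : ∀ c : ℂ, ‖B‖ ≤ ‖B - c • (1 : E →L[ℂ] E)‖) :
    ∃ x : E, ‖x‖ = 1 ∧ ‖B x‖ = ‖B‖ ∧ inner ℂ x (B x) = 0 := by
  have hprop : ProperSpace E := FiniteDimensional.proper_rclike ℂ E
  set S : Set E := Metric.sphere (0 : E) 1 ∩ {x | ‖B x‖ = ‖B‖} with hS
  have hScomp : IsCompact S :=
    (isCompact_sphere (0 : E) 1).inter_right (isClosed_eq B.continuous.norm continuous_const)
  have hSne : S.Nonempty := by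
    obtain ⟨x, hx1, hx2⟩ := exists_norming B
    exact ⟨x, mem_sphere_zero_iff_norm.mpr hx1, hx2⟩
  have hcont : Continuous fun x : E => ‖(inner ℂ x (B x) : ℂ)‖ :=
    (continuous_id.inner B.continuous).norm
  obtain ⟨x, hxS, hmin⟩ := hScomp.exists_isMinOn hSne hcont.continuousOn
  have hx1 : ‖x‖ = 1 := mem_sphere_zero_iff_norm.mp hxS.1
  have hx2 : ‖B x‖ = ‖B‖ := hxS.2
  refine ⟨x, hx1, hx2, ?_⟩
  by_contra hz
  set z : ℂ := inner ℂ x (B x) with hzdef
  obtain ⟨y, hy1, hy2, hy3⟩ := optimal_direction hB z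
  set w : ℂ := inner ℂ y (B y) with hw
  have hzn : 0 < ‖z‖ := norm_pos_iff.mpr hz
  have hne : z ≠ w := by
    intro h
    rw [← h, ← Complex.normSq_eq_conj_mul_self, Complex.ofReal_re, Complex.normSq_eq_norm_sq] at hy3
    have : 0 < ‖z‖ ^ 2 := by positivity
    linarith
  set s : ℝ := ‖z‖ ^ 2 / (‖z‖ ^ 2 + ‖w‖ ^ 2) with hs
  have hden : 0 < ‖z‖ ^ 2 + ‖w‖ ^ 2 := by positivity
  have hs0 : 0 ≤ s := by positivity
  have hs1 : s ≤ 1 := by rw [hs, div_le_one hden]; nlinarith [sq_nonneg ‖w‖]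
  obtain ⟨α, β, hu1, hu2⟩ := segment_range B hx1 hy1 hne hs0 hs1
  set u : E := α • x + β • y with hu
  have huS : u ∈ S := by
    refine ⟨mem_sphere_zero_iff_norm.mpr hu1, ?_⟩
    have h1 : ‖B u‖ = ‖B‖ * ‖u‖ := by
      rw [hu]
      exact norming_add B (norming_smul B α (by rw [hx2, hx1, mul_one]))
        (norming_smul B β (by rw [hy2, hy1, mul_one]))
    simpa [hu1] using h1
  have h1 : ‖z‖ ≤ ‖(inner ℂ u (B u) : ℂ)‖ := hmin huS
  rw [hu2] at h1
  have h2 : ‖z + s * (w - z)‖ ^ 2 =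
      (1 - s) ^ 2 * ‖z‖ ^ 2 + 2 * (s * (1 - s)) * ((starRingEnd ℂ) z * w).re + s ^ 2 * ‖w‖ ^ 2 := by
    have h3 : z + s * (w - z) = ((1 - s : ℝ) : ℂ) * z + ((s : ℝ) : ℂ) * w := by
      push_cast; ring
    rw [h3, ← Complex.normSq_eq_norm_sq, Complex.normSq_add, Complex.normSq_mul, Complex.normSq_mul,
      Complex.normSq_ofReal, Complex.normSq_ofReal, Complex.normSq_eq_norm_sq,
      Complex.normSq_eq_norm_sq]
    have h4 : (((1 - s : ℝ) : ℂ) * z * (starRingEnd ℂ) (((s : ℝ) : ℂ) * w)).re =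
        (s * (1 - s)) * ((starRingEnd ℂ) z * w).re := by
      simp only [map_mul, Complex.conj_ofReal, Complex.mul_re, Complex.mul_im, Complex.ofReal_re,
        Complex.ofReal_im, Complex.conj_re, Complex.conj_im]
      ring
    rw [h4]; ring
  have h3 : ‖z‖ ^ 2 ≤ ‖z + s * (w - z)‖ ^ 2 := pow_le_pow_left₀ (norm_nonneg _) h1 2
  rw [h2] at h3
  have h4 : 2 * (s * (1 - s)) * ((starRingEnd ℂ) z * w).re ≤ 0 :=
    mul_nonpos_of_nonneg_of_nonpos (by nlinarith) hy3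
  have h5 : (1 - s) ^ 2 * ‖z‖ ^ 2 + s ^ 2 * ‖w‖ ^ 2 < ‖z‖ ^ 2 := by
    have h6 : s * (‖z‖ ^ 2 + ‖w‖ ^ 2) = ‖z‖ ^ 2 := by rw [hs]; field_simp
    have hspos : 0 < s := by positivity
    have hz2 : 0 < ‖z‖ ^ 2 := by positivity
    have h7 : (1 - s) ^ 2 * ‖z‖ ^ 2 + s ^ 2 * ‖w‖ ^ 2 =
        ‖z‖ ^ 2 - 2 * s * ‖z‖ ^ 2 + s * (s * (‖z‖ ^ 2 + ‖w‖ ^ 2)) := by ring
    rw [h7, h6]
    nlinarith
  linarith

/-- existence of the best scalar approximation -/
theorem exists_center [FiniteDimensional ℂ E] [Nontrivial E] (A : E →L[ℂ] E) :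
    ∃ l : ℂ, ∀ c : ℂ, ‖A - l • (1 : E →L[ℂ] E)‖ ≤
      ‖(A - l • (1 : E →L[ℂ] E)) - c • (1 : E →L[ℂ] E)‖ := by
  have hcont : Continuous fun l : ℂ => ‖A - l • (1 : E →L[ℂ] E)‖ := by fun_prop
  have hcoer : Tendsto (fun l : ℂ => ‖A - l • (1 : E →L[ℂ] E)‖) (cocompact ℂ) atTop := by
    refine tendsto_atTop_mono (f := fun l : ℂ => ‖l‖ - ‖A‖) (fun l => ?_) ?_
    · have h1 : ‖l • (1 : E →L[ℂ] E)‖ = ‖l‖ := by rw [norm_smul, norm_one, mul_one]
      have h2 := norm_sub_norm_le (l • (1 : E →L[ℂ] E)) A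
      rw [h1, norm_sub_rev] at h2
      exact h2
    · exact tendsto_atTop_add_const_right _ _ (tendsto_norm_cocompact_atTop)
  obtain ⟨l, hl⟩ := hcont.exists_forall_le hcoer
  refine ⟨l, fun c => ?_⟩
  have h := hl (l + c)
  rwa [add_smul, ← sub_sub] at h

end Pool.Agent.T2h95.QR
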