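import Mathlib

set_option autoImplicit false

namespace Pool.Agent.T2h95.QR

/-- The `q`-numerical range `W_q(A) = {⟨Ax,y⟩ : ‖x‖ = ‖y‖ = 1, ⟨x,y⟩ = q}`, where
`⟨u,v⟩ = ∑ u_i conj v_i` is `inner ℂ v u` in Mathlib. -/
def qRange {n : ℕ} (A : Matrix (Fin n) (Fin n) ℂ) (q : ℂ) : Set ℂ :=
  {w | ∃ x y : EuclideanSpace ℂ (Fin n), ‖x‖ = 1 ∧ ‖y‖ = 1 ∧ inner ℂ y x = q ∧
    inner ℂ y (Matrix.toEuclideanCLM (𝕜 := ℂ) A x) = w}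

/-- The scaled `q`-numerical range `Ω_q = W_q(A)/q`. -/
def Omega {n : ℕ} (A : Matrix (Fin n) (Fin n) ℂ) (q : ℂ) : Set ℂ :=
  {z | ∃ w ∈ qRange A q, z = w / q}

/-- The operator norm of a matrix for the Euclidean norm. -/
noncomputable def opNorm {n : ℕ} (A : Matrix (Fin n) (Fin n) ℂ) : ℝ :=
  ‖Matrix.toEuclideanCLM (𝕜 := ℂ) A‖

end Pool.Agent.T2h95.QR
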