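import Mathlib

set_option autoImplicit false

open Filter Topology

namespace Pool.Agent.T2h95.QR

variable {E : Type*} [NormedAddCommGroup E] [InnerProductSpace ℂ E]

/-- a norming unit vector -/
theorem exists_norming [FiniteDimensional ℂ E] [Nontrivial E] (B : E →L[ℂ] E) :
    ∃ x : E, ‖x‖ = 1 ∧ ‖B x‖ = ‖B‖ := by
  have : ProperSpace E := FiniteDimensional.proper_rclike ℂ E
  obtain ⟨v, hv⟩ := exists_ne (0 : E)
  have hne : (Metric.sphere (0 : E) 1).Nonempty := by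
    refine ⟨((‖v‖ : ℂ)⁻¹) • v, ?_⟩
    rw [mem_sphere_zero_iff_norm, norm_smul, norm_inv, Complex.norm_real, norm_norm,
      inv_mul_cancel₀ (norm_ne_zero_iff.mpr hv)]
  obtain ⟨x, hx, hmax⟩ := (isCompact_sphere (0 : E) 1).exists_isMaxOn hne
    (B.continuous.norm.continuousOn)
  have hx1 : ‖x‖ = 1 := mem_sphere_zero_iff_norm.mp hx
  refine ⟨x, hx1, le_antisymm ?_ ?_⟩
  · simpa [hx1] using B.le_opNorm x
  · refine B.opNorm_le_bound (norm_nonneg _) fun w => ?_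
    rcases eq_or_ne w 0 with rfl | hw
    · simp
    · have hwn : ‖w‖ ≠ 0 := norm_ne_zero_iff.mpr hw
      have h1 : ((‖w‖ : ℂ)⁻¹) • w ∈ Metric.sphere (0 : E) 1 := by
        rw [mem_sphere_zero_iff_norm, norm_smul, norm_inv, Complex.norm_real, norm_norm,
          inv_mul_cancel₀ hwn]
      have h2 : ‖B (((‖w‖ : ℂ)⁻¹) • w)‖ ≤ ‖B x‖ := hmax h1
      rw [map_smul, norm_smul, norm_inv, Complex.norm_real, norm_norm] at h2
      rwa [inv_mul_le_iff₀ (by positivity), mul_comm] at h2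

/-- norming vectors are closed under addition -/
theorem norming_add (B : E →L[ℂ] E) {x y : E} (hx : ‖B x‖ = ‖B‖ * ‖x‖) (hy : ‖B y‖ = ‖B‖ * ‖y‖) :
    ‖B (x + y)‖ = ‖B‖ * ‖x + y‖ := by
  have h1 := parallelogram_law_with_norm ℂ (B x) (B y)
  have h2 := parallelogram_law_with_norm ℂ x y
  have h3 := B.le_opNorm (x + y)
  have h4 := B.le_opNorm (x - y)
  rw [map_add] at h3
  rw [map_sub] at h4
  rw [hx, hy] at h1
  rw [map_add]
  refine le_antisymm h3 ?_
  have h5 : ‖B x - B y‖ * ‖B x - B y‖ ≤ (‖B‖ * ‖x - y‖) * (‖B‖ * ‖x - y‖) :=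
    mul_self_le_mul_self (norm_nonneg _) h4
  have h2' : ‖B‖ ^ 2 * ‖x + y‖ ^ 2 + ‖B‖ ^ 2 * ‖x - y‖ ^ 2 =
      2 * ((‖B‖ * ‖x‖) ^ 2 + (‖B‖ * ‖y‖) ^ 2) := by
    rw [← mul_add, h2]; ring
  have h6 : (‖B‖ * ‖x + y‖) * (‖B‖ * ‖x + y‖) ≤ ‖B x + B y‖ * ‖B x + B y‖ := by
    linarith [h1, h2', h5, mul_pow ‖B‖ ‖x + y‖ 2, mul_pow ‖B‖ ‖x - y‖ 2,
      sq (‖B‖ * ‖x + y‖), sq (‖B‖ * ‖x - y‖), sq ‖B x + B y‖, sq ‖B x - B y‖]
  exact (mul_self_le_mul_self_iff (by positivity) (norm_nonneg _)).mpr h6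

theorem norming_smul (B : E →L[ℂ] E) {x : E} (c : ℂ) (hx : ‖B x‖ = ‖B‖ * ‖x‖) :
    ‖B (c • x)‖ = ‖B‖ * ‖c • x‖ := by
  rw [map_smul, norm_smul, norm_smul, hx]; ring

/-- Toeplitz–Hausdorff on a segment -/
theorem segment_range (B : E →L[ℂ] E) {x y : E} (hx : ‖x‖ = 1) (hy : ‖y‖ = 1)
    (hne : inner ℂ x (B x) ≠ inner ℂ y (B y)) {s : ℝ} (hs0 : 0 ≤ s) (hs1 : s ≤ 1) :
    ∃ (α β : ℂ), ‖α • x + β • y‖ = 1 ∧
      inner ℂ (α • x + β • y) (B (α • x + β • y)) =
        inner ℂ x (B x) + s * (inner ℂ y (B y) - inner ℂ x (B x)) := by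
  set a : ℂ := inner ℂ x (B x) with ha
  set b : ℂ := inner ℂ y (B y) with hb
  have hba : b - a ≠ 0 := sub_ne_zero.mpr (Ne.symm hne)
  -- the normalised form
  set c : E → E → ℂ := fun u v => (inner ℂ u (B v) - a * inner ℂ u v) / (b - a) with hc
  have hxx : inner ℂ x x = (1 : ℂ) := by rw [inner_self_eq_norm_sq_to_K, hx]; simp
  have hyy : inner ℂ y y = (1 : ℂ) := by rw [inner_self_eq_norm_sq_to_K, hy]; simp
  have cxx : c x x = 0 := by simp only [hc, hxx, ← ha, mul_one, sub_self, zero_div]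
  have cyy : c y y = 1 := by
    simp only [hc, hyy, ← hb]
    rw [mul_one, div_self hba]
  set d : ℂ := c y x - (starRingEnd ℂ) (c x y) with hd
  obtain ⟨η, hη1, hη2⟩ : ∃ η : ℂ, ‖η‖ = 1 ∧ (η * d).im = 0 := by
    rcases eq_or_ne d 0 with h | h
    · exact ⟨1, norm_one, by simp [h]⟩
    · refine ⟨(starRingEnd ℂ) d / (‖d‖ : ℂ), ?_, ?_⟩
      · rw [norm_div, RCLike.norm_conj, Complex.norm_real, norm_norm,
          div_self (norm_ne_zero_iff.mpr h)]
      · rw [div_mul_eq_mul_div, ← Complex.normSq_eq_conj_mul_self, ← Complex.ofReal_div,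
          Complex.ofReal_im]
  -- cross term
  set κ : ℝ := ((starRingEnd ℂ) η * c x y + η * c y x).re with hκ
  have hκ' : (starRingEnd ℂ) η * c x y + η * c y x = (κ : ℂ) := by
    apply Complex.ext
    · simp [hκ]
    · have h1 : ((starRingEnd ℂ) η * c x y).im = -(η * (starRingEnd ℂ) (c x y)).im := by
        have : (starRingEnd ℂ) η * c x y = (starRingEnd ℂ) (η * (starRingEnd ℂ) (c x y)) := by
          rw [map_mul, Complex.conj_conj]
        rw [this, Complex.conj_im]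
      rw [Complex.add_im, h1, Complex.ofReal_im]
      have h2 : (η * d).im = (η * c y x).im - (η * (starRingEnd ℂ) (c x y)).im := by
        rw [hd, mul_sub, Complex.sub_im]
      linarith
  set u : ℝ → E := fun t => (((1 - t : ℝ) : ℂ) * η) • x + ((t : ℝ) : ℂ) • y with hu
  have hcu : ∀ t : ℝ, c (u t) (u t) = ((t ^ 2 + t * (1 - t) * κ : ℝ) : ℂ) := by
    intro t
    have h1 : c (u t) (u t) = ((1 - t : ℝ) : ℂ) * ((1 - t : ℝ) : ℂ) * ((starRingEnd ℂ) η * η) * c x x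
        + ((1 - t : ℝ) : ℂ) * (t : ℂ) * ((starRingEnd ℂ) η * c x y + η * c y x)
        + (t : ℂ) * (t : ℂ) * c y y := by
      simp only [hc, hu, map_add, map_smul, inner_add_left, inner_add_right, inner_smul_left,
        inner_smul_right, map_mul, Complex.conj_ofReal]
      ring
    rw [h1, cxx, cyy, hκ']
    push_cast
    ring
  have hη0 : η ≠ 0 := by intro h; rw [h, norm_zero] at hη1; exact zero_ne_one hη1
  have hune : ∀ t : ℝ, u t ≠ 0 := by
    intro t ht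
    have h0 : c (u t) (u t) = 0 := by rw [ht]; simp [hc]
    by_cases ht0 : t = 0
    · rw [hu] at ht
      simp only [ht0, sub_zero, Complex.ofReal_one, one_mul, Complex.ofReal_zero, zero_smul,
        add_zero] at ht
      have := smul_eq_zero.mp ht
      rcases this with h | h
      · exact hη0 h
      · rw [h, norm_zero] at hx; exact zero_ne_one hx
    · -- y is a multiple of x
      have h1 : y = (-(((1 - t : ℝ) : ℂ) * η) / (t : ℂ)) • x := by
        have ht' : (t : ℂ) ≠ 0 := by exact_mod_cast ht0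
        have h2 : (t : ℂ) • y = -((((1 - t : ℝ) : ℂ) * η) • x) := by
          rw [eq_neg_iff_add_eq_zero, add_comm]; exact ht
        calc y = ((t : ℂ))⁻¹ • ((t : ℂ) • y) := by rw [smul_smul, inv_mul_cancel₀ ht', one_smul]
          _ = _ := by rw [h2, ← neg_smul, smul_smul]; congr 1; field_simp
      set γ : ℂ := -(((1 - t : ℝ) : ℂ) * η) / (t : ℂ) with hγ
      have h3 : (starRingEnd ℂ) γ * γ = 1 := by
        have := hyy
        rw [h1, inner_smul_left, inner_smul_right, hxx, mul_one] at this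
        exact this
      have h4 : b = a := by
        rw [hb, h1, map_smul, inner_smul_left, inner_smul_right, ← mul_assoc, h3, one_mul]
      exact hne h4.symm
  set g : ℝ → ℝ := fun t => (t ^ 2 + t * (1 - t) * κ) / ‖u t‖ ^ 2 with hg
  have hucont : Continuous u := by
    rw [hu]; fun_prop
  have hgcont : Continuous g := by
    refine Continuous.div (by fun_prop) (hucont.norm.pow 2) fun t => ?_
    exact pow_ne_zero 2 (norm_ne_zero_iff.mpr (hune t))
  have hg0 : g 0 = 0 := by simp [hg]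
  have hg1 : g 1 = 1 := by
    have : u 1 = y := by simp [hu]
    simp [hg, this, hy]
  obtain ⟨t, -, ht⟩ : ∃ t ∈ Set.Icc (0 : ℝ) 1, g t = s := by
    have := intermediate_value_Icc (zero_le_one (α := ℝ)) hgcont.continuousOn
    rw [hg0, hg1] at this
    exact this ⟨hs0, hs1⟩
  have hun : ‖u t‖ ≠ 0 := norm_ne_zero_iff.mpr (hune t)
  have hunc : ((‖u t‖ : ℝ) : ℂ) ≠ 0 := by exact_mod_cast hun
  have hcomb : (((‖u t‖ : ℂ)⁻¹) * (((1 - t : ℝ) : ℂ) * η)) • x +
      (((‖u t‖ : ℂ)⁻¹) * ((t : ℝ) : ℂ)) • y = ((‖u t‖ : ℂ)⁻¹) • u t := by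
    simp only [hu, smul_add, smul_smul]
  refine ⟨((‖u t‖ : ℂ)⁻¹) * (((1 - t : ℝ) : ℂ) * η), ((‖u t‖ : ℂ)⁻¹) * ((t : ℝ) : ℂ), ?_, ?_⟩
  · rw [hcomb, norm_smul, norm_inv, Complex.norm_real, norm_norm]
    exact inv_mul_cancel₀ hun
  · rw [hcomb]
    have h1 : inner ℂ (u t) (B (u t)) = (b - a) * c (u t) (u t) + a * inner ℂ (u t) (u t) := by
      simp only [hc]; field_simp; ring
    have h2 : inner ℂ (u t) (u t) = ((‖u t‖ : ℝ) : ℂ) ^ 2 := by
      rw [inner_self_eq_norm_sq_to_K]; rfl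
    have h3 : c (u t) (u t) = (s : ℂ) * ((‖u t‖ : ℝ) : ℂ) ^ 2 := by
      rw [hcu, ← ht, hg]
      push_cast
      field_simp
    rw [map_smul, inner_smul_left, inner_smul_right, h1, h2, h3, map_inv₀, Complex.conj_ofReal]
    field_simp
    ring

end Pool.Agent.T2h95.QR
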