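import Pool.Agent.T2h95.QR.VN
import Pool.Agent.T2h95.QR.Center
import Pool.Agent.T2h95.QR.Defs

set_option autoImplicit false

open Polynomial Filter Topology

namespace Pool.Agent.T2h95.QR

/-- a circle on which `|p| ≤ M` around a disc containing the operator -/
theorem circle_crit {n : ℕ} [NeZero n] (A : EuclideanSpace ℂ (Fin n) →L[ℂ] EuclideanSpace ℂ (Fin n))
    (l : ℂ) {ρ : ℝ} (hρ0 : 0 < ρ) (hρ : ‖A - l • (1 : _ →L[ℂ] _)‖ ≤ ρ) (p : ℂ[X]) (M : ℝ)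
    (h : ∀ ζ : ℂ, ‖ζ‖ = 1 → ‖p.eval (l + ρ * ζ)‖ ≤ M) : ‖aeval A p‖ ≤ M := by
  set T : EuclideanSpace ℂ (Fin n) →L[ℂ] EuclideanSpace ℂ (Fin n) :=
    ((ρ : ℂ)⁻¹) • (A - l • (1 : _ →L[ℂ] _)) with hT
  have hρc : (ρ : ℂ) ≠ 0 := by exact_mod_cast hρ0.ne'
  have hTn : ‖T‖ ≤ 1 := by
    rw [hT, norm_smul, norm_inv, Complex.norm_real, Real.norm_eq_abs, abs_of_pos hρ0]
    rw [inv_mul_le_iff₀ hρ0, mul_one]; exact hρ
  set F : ℂ[X] := p.comp (C l + C (ρ : ℂ) * X) with hF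
  have h1 := vN T hTn F M (fun ζ hζ => by
    rw [hF, eval_comp]
    simpa using h ζ hζ)
  have h2 : aeval T F = aeval A p := by
    rw [hF, aeval_comp]
    congr 1
    simp only [map_add, map_mul, aeval_C, aeval_X, Algebra.algebraMap_eq_smul_one]
    rw [hT, smul_one_mul, smul_smul, mul_inv_cancel₀ hρc, one_smul, add_sub_cancel]
  rwa [h2] at h1

/-- the points of the circle coming from an orthogonal norming vector -/
theorem orth_circle {E : Type*} [NormedAddCommGroup E] [InnerProductSpace ℂ E] {B : E →L[ℂ] E}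
    {x : E} (hx : ‖x‖ = 1) {R : ℝ} (hR : 0 < R) (hBx : ‖B x‖ = R) (h0 : inner ℂ x (B x) = 0)
    {q : ℂ} (hq0 : q ≠ 0) (hq : ‖q‖ ≤ 1) {ζ : ℂ} (hζ : ‖ζ‖ = 1) :
    ∃ y : E, ‖y‖ = 1 ∧ inner ℂ y x = q ∧
      inner ℂ y (B x) = q * (((Real.sqrt (1 - ‖q‖ ^ 2) / ‖q‖ * R : ℝ) : ℂ) * ζ) := by
  set r : ℝ := Real.sqrt (1 - ‖q‖ ^ 2) with hr
  have hqn : 0 < ‖q‖ := norm_pos_iff.mpr hq0
  have hr2 : r ^ 2 = 1 - ‖q‖ ^ 2 := Real.sq_sqrt (by nlinarith)
  have hr0 : 0 ≤ r := Real.sqrt_nonneg _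
  set c : ℂ := (starRingEnd ℂ) (q * ζ / (‖q‖ : ℂ)) with hc
  have hqc : ((‖q‖ : ℝ) : ℂ) ≠ 0 := by exact_mod_cast hqn.ne'
  have hRc : ((R : ℝ) : ℂ) ≠ 0 := by exact_mod_cast hR.ne'
  have hcn : ‖c‖ = 1 := by
    rw [hc, RCLike.norm_conj, norm_div, norm_mul, hζ, mul_one, Complex.norm_real, norm_norm,
      div_self hqn.ne']
  set g : ℂ := (r : ℂ) * c / (R : ℂ) with hg
  have hxx : inner ℂ x x = (1 : ℂ) := by rw [inner_self_eq_norm_sq_to_K, hx]; simp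
  have hbb : inner ℂ (B x) (B x) = ((R : ℝ) : ℂ) ^ 2 := by
    rw [inner_self_eq_norm_sq_to_K, hBx]; rfl
  have hbx : inner ℂ (B x) x = (0 : ℂ) := by rw [← inner_conj_symm, h0, map_zero]
  refine ⟨(starRingEnd ℂ) q • x + g • B x, ?_, ?_, ?_⟩
  · have h1 : ((‖(starRingEnd ℂ) q • x + g • B x‖ : ℝ) : ℂ) ^ 2 = 1 := by
      have h2 : inner ℂ ((starRingEnd ℂ) q • x + g • B x) ((starRingEnd ℂ) q • x + g • B x) =
          ((‖(starRingEnd ℂ) q • x + g • B x‖ : ℝ) : ℂ) ^ 2 := by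
        rw [inner_self_eq_norm_sq_to_K]; rfl
      rw [← h2]
      simp only [inner_add_left, inner_add_right, inner_smul_left, inner_smul_right, hxx, hbb, h0,
        hbx, Complex.conj_conj, mul_zero, add_zero, zero_add, mul_one]
      have h3 : q * (starRingEnd ℂ) q = ((‖q‖ ^ 2 : ℝ) : ℂ) := by
        rw [Complex.mul_conj, Complex.normSq_eq_norm_sq]
      have h4 : (starRingEnd ℂ) g * g = ((r ^ 2 / R ^ 2 : ℝ) : ℂ) := by
        rw [← Complex.normSq_eq_conj_mul_self, Complex.normSq_eq_norm_sq, hg, norm_div, norm_mul,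
          hcn, mul_one, Complex.norm_real, Complex.norm_real, Real.norm_eq_abs, Real.norm_eq_abs,
          abs_of_nonneg hr0, abs_of_pos hR, div_pow]
      calc _ = q * (starRingEnd ℂ) q + ((starRingEnd ℂ) g * g) * ((R : ℝ) : ℂ) ^ 2 := by ring
        _ = 1 := by
            rw [h3, h4, hr2]
            push_cast
            field_simp
            ring
    have h5 : ‖(starRingEnd ℂ) q • x + g • B x‖ ^ 2 = 1 := by exact_mod_cast h1
    exact (pow_eq_one_iff_of_nonneg (norm_nonneg _) two_ne_zero).mp h5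
  · simp only [inner_add_left, inner_smul_left, hxx, hbx, Complex.conj_conj, mul_one, mul_zero,
      add_zero]
  · simp only [inner_add_left, inner_smul_left, h0, hbb, mul_zero, zero_add]
    have h6 : (starRingEnd ℂ) g = (r : ℂ) * (q * ζ / (‖q‖ : ℂ)) / (R : ℂ) := by
      rw [hg, map_div₀, map_mul, Complex.conj_ofReal, Complex.conj_ofReal, hc, Complex.conj_conj]
    rw [h6]
    push_cast
    field_simp

/-- Two orthogonal unit vectors give a point `l` of `Ω_q` for a scalar operator. -/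
theorem exists_pair {n : ℕ} (hn : 2 ≤ n) {q : ℂ} (hq : ‖q‖ ≤ 1) :
    ∃ x y : EuclideanSpace ℂ (Fin n), ‖x‖ = 1 ∧ ‖y‖ = 1 ∧ inner ℂ y x = q := by
  have hq2 : 0 ≤ 1 - ‖q‖ ^ 2 := by nlinarith [norm_nonneg q]
  set r : ℝ := Real.sqrt (1 - ‖q‖ ^ 2) with hr
  have hr2 : r ^ 2 = 1 - ‖q‖ ^ 2 := Real.sq_sqrt hq2
  set i0 : Fin n := ⟨0, by omega⟩
  set i1 : Fin n := ⟨1, by omega⟩
  have hne : i0 ≠ i1 := by simp [i0, i1]
  set x : EuclideanSpace ℂ (Fin n) := EuclideanSpace.single i0 (1 : ℂ) with hx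
  set e : EuclideanSpace ℂ (Fin n) := EuclideanSpace.single i1 (1 : ℂ) with he
  have hx1 : ‖x‖ = 1 := by simp [hx]
  have he1 : ‖e‖ = 1 := by simp [he]
  have hxx : inner ℂ x x = (1 : ℂ) := by rw [inner_self_eq_norm_sq_to_K, hx1]; simp
  have hee : inner ℂ e e = (1 : ℂ) := by rw [inner_self_eq_norm_sq_to_K, he1]; simp
  have hxe : inner ℂ x e = (0 : ℂ) := by simp [hx, he, EuclideanSpace.inner_single_left, hne]
  have hex : inner ℂ e x = (0 : ℂ) := by rw [← inner_conj_symm, hxe, map_zero]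
  refine ⟨x, (starRingEnd ℂ) q • x + (r : ℂ) • e, hx1, ?_, ?_⟩
  · have h2 : inner ℂ ((starRingEnd ℂ) q • x + (r : ℂ) • e) ((starRingEnd ℂ) q • x + (r : ℂ) • e) =
        ((‖(starRingEnd ℂ) q • x + (r : ℂ) • e‖ : ℝ) : ℂ) ^ 2 := by
      rw [inner_self_eq_norm_sq_to_K]; rfl
    have h1 : ((‖(starRingEnd ℂ) q • x + (r : ℂ) • e‖ : ℝ) : ℂ) ^ 2 = 1 := by
      rw [← h2]
      simp only [inner_add_left, inner_add_right, inner_smul_left, inner_smul_right, hxx, hee, hxe,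
        hex, Complex.conj_conj, Complex.conj_ofReal, mul_zero, add_zero, zero_add, mul_one]
      rw [mul_comm ((starRingEnd ℂ) q), Complex.mul_conj, Complex.normSq_eq_norm_sq]
      have : (r : ℂ) * (r : ℂ) = ((r ^ 2 : ℝ) : ℂ) := by push_cast; ring
      rw [this, hr2]; push_cast; ring
    have h5 : ‖(starRingEnd ℂ) q • x + (r : ℂ) • e‖ ^ 2 = 1 := by exact_mod_cast h1
    exact (pow_eq_one_iff_of_nonneg (norm_nonneg _) two_ne_zero).mp h5
  · simp only [inner_add_left, inner_smul_left, hxx, hex, Complex.conj_conj, mul_one, mul_zero,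
      add_zero]

/-- transfer to matrices -/
theorem toCLM_aeval {n : ℕ} (A : Matrix (Fin n) (Fin n) ℂ) (p : ℂ[X]) :
    Matrix.toEuclideanCLM (𝕜 := ℂ) (aeval A p) = aeval (Matrix.toEuclideanCLM (𝕜 := ℂ) A) p := by
  have h := Polynomial.aeval_algHom_apply
    ((Matrix.toEuclideanCLM (n := Fin n) (𝕜 := ℂ)).toAlgEquiv.toAlgHom) A p
  exact h.symm

/-- the scalar case -/
theorem scalar_case {n : ℕ} (hn : 2 ≤ n) {A : Matrix (Fin n) (Fin n) ℂ} {l : ℂ}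
    (hA : Matrix.toEuclideanCLM (𝕜 := ℂ) A = l • (1 : _ →L[ℂ] _)) {q : ℂ} (hq0 : q ≠ 0)
    (hq : ‖q‖ ≤ 1) (p : ℂ[X]) (M : ℝ) (h : ∀ z ∈ Omega A q, ‖p.eval z‖ ≤ M) :
    opNorm (aeval A p) ≤ M := by
  obtain ⟨x, y, hx, hy, hxy⟩ := exists_pair hn hq
  have hmem : l ∈ Omega A q := by
    refine ⟨l * q, ⟨x, y, hx, hy, hxy, ?_⟩, ?_⟩
    · rw [hA]
      simp [inner_smul_right, hxy]
    · rw [mul_div_assoc, div_self hq0, mul_one]
  have : Nonempty (Fin n) := ⟨⟨0, by omega⟩⟩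
  have h1 : aeval (Matrix.toEuclideanCLM (𝕜 := ℂ) A) p =
      (p.eval l) • (1 : EuclideanSpace ℂ (Fin n) →L[ℂ] EuclideanSpace ℂ (Fin n)) := by
    rw [hA, ← Algebra.algebraMap_eq_smul_one, aeval_algebraMap_apply, ← Algebra.algebraMap_eq_smul_one]
    rfl
  rw [opNorm, toCLM_aeval, h1, norm_smul]
  have h2 : ‖(1 : EuclideanSpace ℂ (Fin n) →L[ℂ] EuclideanSpace ℂ (Fin n))‖ ≤ 1 :=
    ContinuousLinearMap.norm_id_le
  have h3 := h l hmem
  nlinarith [norm_nonneg (p.eval l)]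

/-- Q1 whenever the disc around the best scalar approximation fits -/
theorem small_q {n : ℕ} (hn : 2 ≤ n) (A : Matrix (Fin n) (Fin n) ℂ) {q : ℂ} (hq0 : q ≠ 0)
    (hq : ‖q‖ ^ 2 ≤ 1 / 2) (p : ℂ[X]) (M : ℝ) (h : ∀ z ∈ Omega A q, ‖p.eval z‖ ≤ M) :
    opNorm (aeval A p) ≤ M := by
  have hqn : 0 < ‖q‖ := norm_pos_iff.mpr hq0
  have hq1 : ‖q‖ ≤ 1 := by nlinarith
  have hnz : NeZero n := ⟨by omega⟩
  have hnt : Nontrivial (EuclideanSpace ℂ (Fin n)) := by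
    refine ⟨⟨EuclideanSpace.single 0 1, 0, ?_⟩⟩
    intro h0
    have : ‖(EuclideanSpace.single 0 1 : EuclideanSpace ℂ (Fin n))‖ = 0 := by rw [h0, norm_zero]
    simp at this
  obtain ⟨l, hl⟩ := exists_center (Matrix.toEuclideanCLM (𝕜 := ℂ) A)
  set B := Matrix.toEuclideanCLM (𝕜 := ℂ) A - l • (1 : EuclideanSpace ℂ (Fin n) →L[ℂ] _) with hB
  rcases eq_or_ne B 0 with h0 | h0
  · exact scalar_case hn (sub_eq_zero.mp h0) hq0 hq1 p M h
  have hR : 0 < ‖B‖ := norm_pos_iff.mpr h0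
  obtain ⟨x, hx1, hx2, hx3⟩ := stampfli hl
  set r : ℝ := Real.sqrt (1 - ‖q‖ ^ 2) with hr
  have hrq : 1 ≤ r / ‖q‖ := by
    rw [one_le_div hqn]
    exact Real.le_sqrt_of_sq_le (by linarith)
  have hρ0 : 0 < r / ‖q‖ * ‖B‖ := by positivity
  rw [opNorm, toCLM_aeval]
  refine circle_crit _ l hρ0 (by nlinarith) p M fun ζ hζ => h _ ?_
  obtain ⟨y, hy1, hy2, hy3⟩ := orth_circle hx1 hR hx2 hx3 hq0 hq1 hζ
  refine ⟨q * (l + ((r / ‖q‖ * ‖B‖ : ℝ) : ℂ) * ζ), ⟨x, y, hx1, hy1, hy2, ?_⟩, ?_⟩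
  · have h1 : Matrix.toEuclideanCLM (𝕜 := ℂ) A x = l • x + B x := by
      rw [hB]; simp
    rw [h1, inner_add_right, inner_smul_right, hy2, hy3]
    ring
  · rw [mul_comm q, mul_div_assoc, div_self hq0, mul_one]

end Pool.Agent.T2h95.QR
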