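import Pool.Agent.T2h95.QR.Main

set_option autoImplicit false

open Polynomial Filter Topology

namespace Pool.Agent.T2h95.QR

section circle

variable {E : Type*} [NormedAddCommGroup E] [InnerProductSpace ℂ E]

/-- the larger circle coming from a norming vector with `⟨Bx,x⟩ = ⟨B²x,x⟩ = 0` -/
theorem nilp_circle {B : E →L[ℂ] E} {x : E} (hx : ‖x‖ = 1) {R : ℝ} (hR : 0 < R)
    (hBx : ‖B x‖ = R) (h0 : inner ℂ x (B x) = 0) (h00 : inner ℂ x (B (B x)) = 0)
    (h000 : inner ℂ (B x) (B (B x)) = 0) {q : ℂ} (hq0 : q ≠ 0) (hq : ‖q‖ ≤ 1) {ζ : ℂ}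
    (hζ : ‖ζ‖ = 1) :
    ∃ u y : E, ‖u‖ = 1 ∧ ‖y‖ = 1 ∧ inner ℂ y u = q ∧
      inner ℂ y (B u) =
        q * ((((1 + Real.sqrt (1 - ‖q‖ ^ 2)) / (2 * ‖q‖) * R : ℝ) : ℂ) * ζ) := by
  set r : ℝ := Real.sqrt (1 - ‖q‖ ^ 2) with hr
  have hqn : 0 < ‖q‖ := norm_pos_iff.mpr hq0
  have hr2 : r ^ 2 = 1 - ‖q‖ ^ 2 := Real.sq_sqrt (by nlinarith)
  have hr0 : 0 ≤ r := Real.sqrt_nonneg _
  have hr1 : r ≤ 1 := by nlinarith [sq_nonneg ‖q‖]
  set α : ℝ := Real.sqrt ((1 + r) / 2) with hα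
  set β : ℝ := Real.sqrt ((1 - r) / 2) with hβ
  have hα2 : α ^ 2 = (1 + r) / 2 := Real.sq_sqrt (by linarith)
  have hβ2 : β ^ 2 = (1 - r) / 2 := Real.sq_sqrt (by linarith)
  have hαβ : 2 * (α * β) = ‖q‖ := by
    have h1 : (2 * (α * β)) ^ 2 = ‖q‖ ^ 2 := by
      calc (2 * (α * β)) ^ 2 = 4 * (α ^ 2 * β ^ 2) := by ring
        _ = 1 - r ^ 2 := by rw [hα2, hβ2]; ring
        _ = ‖q‖ ^ 2 := by rw [hr2]; ring
    have h2 : 0 ≤ 2 * (α * β) := by positivity
    exact (pow_left_inj₀ h2 hqn.le two_ne_zero).mp h1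
  have hqc : ((‖q‖ : ℝ) : ℂ) ≠ 0 := by exact_mod_cast hqn.ne'
  have hRc : ((R : ℝ) : ℂ) ≠ 0 := by exact_mod_cast hR.ne'
  set e : E := ((R : ℂ)⁻¹) • B x with he
  have hBxe : B x = (R : ℂ) • e := by rw [he, smul_smul, mul_inv_cancel₀ hRc, one_smul]
  have hxx : inner ℂ x x = (1 : ℂ) := by rw [inner_self_eq_norm_sq_to_K, hx]; simp
  have he1 : ‖e‖ = 1 := by
    rw [he, norm_smul, norm_inv, Complex.norm_real, Real.norm_eq_abs, abs_of_pos hR, hBx,
      inv_mul_cancel₀ hR.ne']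
  have hee : inner ℂ e e = (1 : ℂ) := by rw [inner_self_eq_norm_sq_to_K, he1]; simp
  have hxe : inner ℂ x e = (0 : ℂ) := by rw [he, inner_smul_right, h0, mul_zero]
  have hex : inner ℂ e x = (0 : ℂ) := by rw [← inner_conj_symm, hxe, map_zero]
  have hxBe : inner ℂ x (B e) = (0 : ℂ) := by
    rw [he, map_smul, inner_smul_right, h00, mul_zero]
  have heBe : inner ℂ e (B e) = (0 : ℂ) := by
    rw [he, map_smul, inner_smul_right, inner_smul_left, h000, mul_zero, mul_zero]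
  have hζζ : (starRingEnd ℂ) ζ * ζ = 1 := by
    rw [← Complex.normSq_eq_conj_mul_self, Complex.normSq_eq_norm_sq, hζ]; simp
  set η : ℂ := (starRingEnd ℂ) q / (‖q‖ : ℂ) with hη
  have hηη : (starRingEnd ℂ) η * η = 1 := by
    rw [← Complex.normSq_eq_conj_mul_self, Complex.normSq_eq_norm_sq, hη, norm_div, RCLike.norm_conj,
      Complex.norm_real, norm_norm, div_self hqn.ne']; simp
  set u : E := (α : ℂ) • x + ((starRingEnd ℂ) ζ * (β : ℂ)) • e with hu
  set v : E := (-(β : ℂ)) • x + ((starRingEnd ℂ) ζ * (α : ℂ)) • e with hv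
  have hsum : (α : ℂ) * α + (β : ℂ) * β = 1 := by
    have : α * α + β * β = 1 := by nlinarith
    exact_mod_cast this
  have huu : inner ℂ u u = (1 : ℂ) := by
    simp only [hu, inner_add_left, inner_add_right, inner_smul_left, inner_smul_right, hxx, hee, hxe,
      hex, map_mul, Complex.conj_conj, Complex.conj_ofReal, mul_zero, add_zero, zero_add, mul_one]
    calc (α : ℂ) * α + (starRingEnd ℂ) ζ * β * (ζ * β)
        = (α : ℂ) * α + ((starRingEnd ℂ) ζ * ζ) * ((β : ℂ) * β) := by ring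
      _ = 1 := by rw [hζζ, one_mul, hsum]
  have hvv : inner ℂ v v = (1 : ℂ) := by
    simp only [hv, inner_add_left, inner_add_right, inner_smul_left, inner_smul_right, hxx, hee, hxe,
      hex, map_mul, map_neg, Complex.conj_conj, Complex.conj_ofReal, mul_zero, add_zero, zero_add,
      mul_one]
    calc -(β : ℂ) * -(β : ℂ) + (starRingEnd ℂ) ζ * α * (ζ * α)
        = (β : ℂ) * β + ((starRingEnd ℂ) ζ * ζ) * ((α : ℂ) * α) := by ring
      _ = 1 := by rw [hζζ, one_mul, add_comm, hsum]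
  have hvu : inner ℂ v u = (0 : ℂ) := by
    simp only [hu, hv, inner_add_left, inner_add_right, inner_smul_left, inner_smul_right, hxx, hee,
      hxe, hex, map_mul, map_neg, Complex.conj_conj, Complex.conj_ofReal, mul_zero, add_zero,
      zero_add, mul_one]
    calc (α : ℂ) * -(β : ℂ) + (starRingEnd ℂ) ζ * β * (ζ * α)
        = -((α : ℂ) * β) + ((starRingEnd ℂ) ζ * ζ) * ((α : ℂ) * β) := by ring
      _ = 0 := by rw [hζζ]; ring
  have huv : inner ℂ u v = (0 : ℂ) := by rw [← inner_conj_symm, hvu, map_zero]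
  have hu1 : ‖u‖ = 1 := by
    have h1 : inner ℂ u u = ((‖u‖ : ℝ) : ℂ) ^ 2 := by rw [inner_self_eq_norm_sq_to_K]; rfl
    rw [huu] at h1
    have h2 : ‖u‖ ^ 2 = 1 := by exact_mod_cast h1.symm
    exact (pow_eq_one_iff_of_nonneg (norm_nonneg _) two_ne_zero).mp h2
  refine ⟨u, (starRingEnd ℂ) q • u + ((r : ℂ) * η) • v, hu1, ?_, ?_, ?_⟩
  · set y : E := (starRingEnd ℂ) q • u + ((r : ℂ) * η) • v with hy
    have h1 : inner ℂ y y = ((‖y‖ : ℝ) : ℂ) ^ 2 := by rw [inner_self_eq_norm_sq_to_K]; rfl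
    have h2 : inner ℂ y y = (1 : ℂ) := by
      simp only [hy, inner_add_left, inner_add_right, inner_smul_left, inner_smul_right, huu, hvv,
        huv, hvu, map_mul, Complex.conj_conj, Complex.conj_ofReal, mul_zero, add_zero, zero_add,
        mul_one]
      calc (starRingEnd ℂ) q * q + (r : ℂ) * η * ((r : ℂ) * (starRingEnd ℂ) η)
          = (starRingEnd ℂ) q * q + ((starRingEnd ℂ) η * η) * ((r : ℂ) ^ 2) := by ring
        _ = 1 := by
            rw [hηη, ← Complex.normSq_eq_conj_mul_self, Complex.normSq_eq_norm_sq, one_mul]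
            have : ((‖q‖ ^ 2 : ℝ) : ℂ) + ((r ^ 2 : ℝ) : ℂ) = 1 := by
              rw [hr2]; push_cast; ring
            rw [← this]; push_cast; ring
    rw [h2] at h1
    have h3 : ‖y‖ ^ 2 = 1 := by exact_mod_cast h1.symm
    exact (pow_eq_one_iff_of_nonneg (norm_nonneg _) two_ne_zero).mp h3
  · simp only [inner_add_left, inner_smul_left, huu, hvu, Complex.conj_conj, mul_one, mul_zero,
      add_zero]
  · have hBu : B u = ((α : ℂ) * R) • e + ((starRingEnd ℂ) ζ * (β : ℂ)) • B e := by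
      rw [hu, map_add, map_smul, map_smul, hBxe, smul_smul]
    have hue : inner ℂ u e = ζ * β := by
      simp only [hu, inner_add_left, inner_smul_left, hxe, hee, map_mul, Complex.conj_conj,
        Complex.conj_ofReal, mul_zero, zero_add, mul_one]
    have hve : inner ℂ v e = ζ * α := by
      simp only [hv, inner_add_left, inner_smul_left, hxe, hee, map_mul, Complex.conj_conj,
        Complex.conj_ofReal, mul_zero, zero_add, mul_one]
    have huBe : inner ℂ u (B e) = (0 : ℂ) := by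
      simp only [hu, inner_add_left, inner_smul_left, hxBe, heBe, mul_zero, add_zero]
    have hvBe : inner ℂ v (B e) = (0 : ℂ) := by
      simp only [hv, inner_add_left, inner_smul_left, hxBe, heBe, mul_zero, add_zero]
    rw [hBu]
    simp only [inner_add_left, inner_add_right, inner_smul_left, inner_smul_right, hue, hve, huBe,
      hvBe, map_mul, Complex.conj_conj, Complex.conj_ofReal, mul_zero, add_zero]
    have hηc : (starRingEnd ℂ) η = q / (‖q‖ : ℂ) := by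
      rw [hη, map_div₀, Complex.conj_conj, Complex.conj_ofReal]
    rw [hηc]
    have hk : (2 : ℂ) * ((α : ℂ) * β) = (‖q‖ : ℂ) := by exact_mod_cast hαβ
    have hα2c : (α : ℂ) ^ 2 = (1 + (r : ℂ)) / 2 := by
      have : ((α ^ 2 : ℝ) : ℂ) = (((1 + r) / 2 : ℝ) : ℂ) := by rw [hα2]
      push_cast at this; exact this
    have hr2c : (r : ℂ) ^ 2 = 1 - (‖q‖ : ℂ) ^ 2 := by
      have : ((r ^ 2 : ℝ) : ℂ) = ((1 - ‖q‖ ^ 2 : ℝ) : ℂ) := by rw [hr2]
      push_cast at this; exact this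
    have key : (2 : ℂ) * (‖q‖ : ℂ) * ((α : ℂ) * β + (r : ℂ) / (‖q‖ : ℂ) * (α : ℂ) ^ 2) =
        1 + (r : ℂ) := by
      rw [hα2c]
      field_simp
      have h5 : (‖q‖ : ℂ) * (2 * ((α : ℂ) * β)) = (‖q‖ : ℂ) ^ 2 := by rw [hk]; ring
      linear_combination h5 + hr2c
    have h2q : (2 : ℂ) * (‖q‖ : ℂ) ≠ 0 := mul_ne_zero two_ne_zero hqc
    have key2 : (α : ℂ) * β + (r : ℂ) / (‖q‖ : ℂ) * (α : ℂ) ^ 2 = (1 + (r : ℂ)) / (2 * (‖q‖ : ℂ)) := by
      rw [eq_div_iff h2q, mul_comm]; exact key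
    push_cast
    calc _ = q * ((α * β + (r : ℂ) / (‖q‖ : ℂ) * (α : ℂ) ^ 2) * (R : ℂ) * ζ) := by ring
      _ = _ := by rw [key2]

end circle

end Pool.Agent.T2h95.QR
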