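import Pool.Agent.T2h95.QR.Rot

set_option autoImplicit false

open Polynomial Filter Topology

namespace Pool.Agent.T2h95.QR

section sym

variable {E : Type*} [NormedAddCommGroup E] [InnerProductSpace ℂ E] [FiniteDimensional ℂ E]

omit [FiniteDimensional ℂ E] in
/-- norming vectors are eigenvectors of `B†B` -/
theorem norming_eig [CompleteSpace E] (B : E →L[ℂ] E) {x : E} (hx : ‖x‖ = 1) (hBx : ‖B x‖ = ‖B‖) :
    (ContinuousLinearMap.adjoint B) (B x) = ((‖B‖ : ℂ) ^ 2) • x := by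
  set w : E := (ContinuousLinearMap.adjoint B) (B x) with hw
  have h1 : inner ℂ w x = ((‖B‖ : ℂ) ^ 2) := by
    rw [hw, ContinuousLinearMap.adjoint_inner_left, inner_self_eq_norm_sq_to_K, hBx]; rfl
  have h2 : ‖w‖ ≤ ‖B‖ ^ 2 := by
    have h3 := (ContinuousLinearMap.adjoint B).le_opNorm (B x)
    rw [LinearIsometryEquiv.norm_map, hBx] at h3
    rw [sq]; exact h3
  have h4 : ‖w - ((‖B‖ : ℂ) ^ 2) • x‖ ^ 2 ≤ 0 := by
    rw [norm_sub_sq (𝕜 := ℂ), inner_smul_right, h1, norm_smul, hx]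
    have h5 : RCLike.re (((‖B‖ : ℂ) ^ 2) * ((‖B‖ : ℂ) ^ 2)) = (‖B‖ ^ 2) ^ 2 := by
      have : ((‖B‖ : ℂ) ^ 2) * ((‖B‖ : ℂ) ^ 2) = (((‖B‖ ^ 2) ^ 2 : ℝ) : ℂ) := by push_cast; ring
      rw [this]; rfl
    rw [h5]
    have h6 : ‖((‖B‖ : ℂ) ^ 2)‖ = ‖B‖ ^ 2 := by
      rw [norm_pow, Complex.norm_real, norm_norm]
    rw [h6]
    have h7 : ‖w‖ ^ 2 ≤ (‖B‖ ^ 2) ^ 2 := pow_le_pow_left₀ (norm_nonneg _) h2 2
    nlinarith
  have h8 : ‖w - ((‖B‖ : ℂ) ^ 2) • x‖ = 0 := by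
    have := le_antisymm h4 (sq_nonneg _)
    exact pow_eq_zero_iff two_ne_zero |>.mp this
  exact sub_eq_zero.mp (norm_eq_zero.mp h8)

/-- a norming vector orthogonal to `Bx` and `B²x` for a rotation-symmetric operator -/
theorem sym_vector [CompleteSpace E] [Nontrivial E] (B : E →L[ℂ] E) (hB : B ≠ 0) (U : E →L[ℂ] E)
    (hU1 : ContinuousLinearMap.adjoint U * U = 1) (hU2 : U * ContinuousLinearMap.adjoint U = 1)
    (ω : ℂ) (hω1 : ω ≠ 1) (hω2 : ω ≠ -1) (hBU : B * U = ω • (U * B)) :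
    ∃ x : E, ‖x‖ = 1 ∧ ‖B x‖ = ‖B‖ ∧ inner ℂ x (B x) = 0 ∧ inner ℂ x (B (B x)) = 0 ∧
      inner ℂ (B x) (B (B x)) = 0 := by
  have hR : 0 < ‖B‖ := norm_pos_iff.mpr hB
  have hUinner : ∀ v w : E, inner ℂ (U v) (U w) = inner ℂ v w := by
    intro v w
    have h1 : inner ℂ (U v) (U w) = inner ℂ v ((ContinuousLinearMap.adjoint U * U) w) := by
      rw [ContinuousLinearMap.mul_apply, ContinuousLinearMap.adjoint_inner_right]
    rw [h1, hU1]; rfl
  have hUnorm : ∀ v : E, ‖U v‖ = ‖v‖ := by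
    intro v
    have h1 : ((‖U v‖ : ℝ) : ℂ) ^ 2 = ((‖v‖ : ℝ) : ℂ) ^ 2 := by
      have := hUinner v v
      rw [inner_self_eq_norm_sq_to_K, inner_self_eq_norm_sq_to_K] at this
      exact this
    have h2 : ‖U v‖ ^ 2 = ‖v‖ ^ 2 := by exact_mod_cast h1
    exact (pow_left_inj₀ (norm_nonneg _) (norm_nonneg _) two_ne_zero).mp h2
  have hBUv : ∀ v : E, B (U v) = ω • U (B v) := by
    intro v
    have := congrArg (fun T : E →L[ℂ] E => T v) hBU
    simpa using this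
  -- `|ω| = 1`
  have hωn : ‖ω‖ = 1 := by
    obtain ⟨x0, hx0, hx0'⟩ := exists_norming B
    -- ‖B‖ ≤ |ω| ‖B‖ : x0 = U (U† x0)
    set v : E := (ContinuousLinearMap.adjoint U) x0 with hv
    have h1 : U v = x0 := by
      have := congrArg (fun T : E →L[ℂ] E => T x0) hU2
      simpa using this
    have h2 : ‖v‖ = 1 := by rw [← hUnorm v, h1, hx0]
    have h3 : ‖B‖ = ‖ω‖ * ‖B v‖ := by
      rw [← hx0', ← h1, hBUv, norm_smul, hUnorm]
    have h4 : ‖B v‖ ≤ ‖B‖ := by simpa [h2] using B.le_opNorm v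
    have h5 : ‖ω‖ * ‖B‖ ≤ ‖B‖ := by
      have h6 : ‖B (U x0)‖ ≤ ‖B‖ := by simpa [hUnorm, hx0] using B.le_opNorm (U x0)
      rw [hBUv, norm_smul, hUnorm, hx0'] at h6
      exact h6
    have h7 : ‖ω‖ ≤ 1 := by
      by_contra h; push Not at h; nlinarith
    refine le_antisymm h7 ?_
    by_contra h; push Not at h
    have : ‖ω‖ * ‖B v‖ ≤ ‖ω‖ * ‖B‖ := mul_le_mul_of_nonneg_left h4 (norm_nonneg _)
    nlinarith
  have hω0 : ω ≠ 0 := by intro h; rw [h, norm_zero] at hωn; exact zero_ne_one hωn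
  have hωc : (starRingEnd ℂ) ω * ω = 1 := by
    rw [← Complex.normSq_eq_conj_mul_self, Complex.normSq_eq_norm_sq, hωn]; simp
  set B' := ContinuousLinearMap.adjoint B with hB'
  set U' := ContinuousLinearMap.adjoint U with hU'
  -- B† U = conj ω U B†
  have hB'U : B' * U = (starRingEnd ℂ) ω • (U * B') := by
    have h1 : U' * B' = (starRingEnd ℂ) ω • (B' * U') := by
      have := congrArg ContinuousLinearMap.adjoint hBU
      rw [ContinuousLinearMap.mul_def, ContinuousLinearMap.mul_def, ContinuousLinearMap.adjoint_comp,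
        map_smulₛₗ, ContinuousLinearMap.adjoint_comp] at this
      exact this
    calc B' * U = (U * U') * B' * U := by rw [hU2, one_mul]
      _ = U * (U' * B') * U := by simp only [mul_assoc]
      _ = (starRingEnd ℂ) ω • (U * B' * (U' * U)) := by
          rw [h1, mul_smul_comm, smul_mul_assoc]; simp only [mul_assoc]
      _ = _ := by rw [hU1, mul_one]
  have hB'Uv : ∀ v : E, B' (U v) = (starRingEnd ℂ) ω • U (B' v) := by
    intro v
    have := congrArg (fun T : E →L[ℂ] E => T v) hB'U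
    simpa using this
  -- the norming subspace
  set N : Submodule ℂ E := LinearMap.ker ((B' * B - ((‖B‖ : ℂ) ^ 2) • (1 : E →L[ℂ] E)).toLinearMap)
    with hN
  have hmem : ∀ v : E, v ∈ N ↔ B' (B v) = ((‖B‖ : ℂ) ^ 2) • v := by
    intro v
    rw [hN, LinearMap.mem_ker]
    simp only [ContinuousLinearMap.coe_coe, ContinuousLinearMap.sub_apply,
      ContinuousLinearMap.mul_apply, ContinuousLinearMap.smul_apply, ContinuousLinearMap.one_apply]
    exact sub_eq_zero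
  have hUN : ∀ v ∈ N, U v ∈ N := by
    intro v hv
    rw [hmem] at hv ⊢
    rw [hBUv, map_smul, hB'Uv, smul_smul, mul_comm ω, hωc, one_smul, hv, map_smul]
  obtain ⟨x0, hx0, hx0'⟩ := exists_norming B
  have hx0N : x0 ∈ N := (hmem x0).mpr (norming_eig B hx0 hx0')
  have hx00 : x0 ≠ 0 := by intro h; rw [h, norm_zero] at hx0; exact zero_ne_one hx0
  have hNnt : Nontrivial N := ⟨⟨⟨x0, hx0N⟩, 0, fun h => hx00 (by simpa using congrArg Subtype.val h)⟩⟩
  set L : N →ₗ[ℂ] N := U.toLinearMap.restrict hUN with hL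
  obtain ⟨μ, hμ⟩ := Module.End.exists_eigenvalue L
  obtain ⟨v, hv⟩ := hμ.exists_hasEigenvector
  have hv0 : (v : E) ≠ 0 := fun h => hv.2 (Subtype.ext h)
  have hUv : U (v : E) = μ • (v : E) := by
    have := congrArg Subtype.val hv.apply_eq_smul
    simpa [hL] using this
  have hvn : ‖(v : E)‖ ≠ 0 := norm_ne_zero_iff.mpr hv0
  set x : E := ((‖(v : E)‖ : ℂ)⁻¹) • (v : E) with hx
  have hx1 : ‖x‖ = 1 := by
    rw [hx, norm_smul, norm_inv, Complex.norm_real, norm_norm, inv_mul_cancel₀ hvn]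
  have hUx : U x = μ • x := by rw [hx, map_smul, hUv, smul_comm]
  have hxN : B' (B x) = ((‖B‖ : ℂ) ^ 2) • x := by
    rw [← hmem, hx]; exact N.smul_mem _ v.2
  have hμn : ‖μ‖ = 1 := by
    have := hUnorm x
    rw [hUx, norm_smul, hx1, mul_one] at this
    exact this
  have hμc : (starRingEnd ℂ) μ * μ = 1 := by
    rw [← Complex.normSq_eq_conj_mul_self, Complex.normSq_eq_norm_sq, hμn]; simp
  have hBxn : ‖B x‖ = ‖B‖ := by
    have h1 : inner ℂ (B x) (B x) = ((‖B‖ : ℂ) ^ 2) := by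
      rw [← ContinuousLinearMap.adjoint_inner_right, hxN, inner_smul_right,
        inner_self_eq_norm_sq_to_K, hx1]
      simp
    rw [inner_self_eq_norm_sq_to_K] at h1
    change ((‖B x‖ : ℝ) : ℂ) ^ 2 = ((‖B‖ : ℝ) : ℂ) ^ 2 at h1
    have h2 : ‖B x‖ ^ 2 = ‖B‖ ^ 2 := by exact_mod_cast h1
    exact (pow_left_inj₀ (norm_nonneg _) (norm_nonneg _) two_ne_zero).mp h2
  have hUB : ω • U (B x) = μ • B x := by rw [← hBUv, hUx, map_smul]
  have hUBB : (ω * ω) • U (B (B x)) = μ • B (B x) := by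
    have h1 : ω • U (B (B x)) = B (U (B x)) := (hBUv (B x)).symm
    rw [mul_smul, h1, ← map_smul, hUB, map_smul]
  have h0 : inner ℂ x (B x) = 0 := by
    have h1 : ω * inner ℂ x (B x) = inner ℂ x (B x) := by
      calc ω * inner ℂ x (B x) = ω * inner ℂ (U x) (U (B x)) := by rw [hUinner]
        _ = inner ℂ (μ • x) (ω • U (B x)) := by rw [inner_smul_right, hUx]
        _ = ((starRingEnd ℂ) μ * μ) * inner ℂ x (B x) := by
            rw [hUB, inner_smul_left, inner_smul_right]; ring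
        _ = _ := by rw [hμc, one_mul]
    have h2 : (ω - 1) * inner ℂ x (B x) = 0 := by rw [sub_mul, h1]; ring
    exact (mul_eq_zero.mp h2).resolve_left (sub_ne_zero.mpr hω1)
  refine ⟨x, hx1, hBxn, h0, ?_, ?_⟩
  · have h1 : (ω * ω) * inner ℂ x (B (B x)) = inner ℂ x (B (B x)) := by
      calc (ω * ω) * inner ℂ x (B (B x)) = (ω * ω) * inner ℂ (U x) (U (B (B x))) := by rw [hUinner]
        _ = inner ℂ (μ • x) ((ω * ω) • U (B (B x))) := by rw [inner_smul_right, hUx]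
        _ = ((starRingEnd ℂ) μ * μ) * inner ℂ x (B (B x)) := by
            rw [hUBB, inner_smul_left, inner_smul_right]; ring
        _ = _ := by rw [hμc, one_mul]
    have h2 : ((ω - 1) * (ω + 1)) * inner ℂ x (B (B x)) = 0 := by linear_combination h1
    refine (mul_eq_zero.mp h2).resolve_left (mul_ne_zero (sub_ne_zero.mpr hω1) ?_)
    intro h3; exact hω2 (eq_neg_of_add_eq_zero_left h3)
  · rw [← ContinuousLinearMap.adjoint_inner_left, ← hB', hxN, inner_smul_left, h0, mul_zero]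

end sym

/-- Q1 for rotation-symmetric matrices and `|q| ≤ 4/5` -/
theorem rot_q {n : ℕ} (hn : 2 ≤ n) (A U : Matrix (Fin n) (Fin n) ℂ) (l ω : ℂ)
    (hU : U ∈ Matrix.unitaryGroup (Fin n) ℂ) (hω1 : ω ≠ 1) (hω2 : ω ≠ -1)
    (hAU : (A - l • (1 : Matrix (Fin n) (Fin n) ℂ)) * U =
      ω • (U * (A - l • (1 : Matrix (Fin n) (Fin n) ℂ)))) {q : ℂ} (hq0 : q ≠ 0)
    (hq : ‖q‖ ≤ 4 / 5) (p : ℂ[X]) (M : ℝ) (h : ∀ z ∈ Omega A q, ‖p.eval z‖ ≤ M) :
    opNorm (aeval A p) ≤ M := by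
  have hqn : 0 < ‖q‖ := norm_pos_iff.mpr hq0
  have hq1 : ‖q‖ ≤ 1 := by linarith
  have hnz : NeZero n := ⟨by omega⟩
  have hnt : Nontrivial (EuclideanSpace ℂ (Fin n)) := by
    refine ⟨⟨EuclideanSpace.single 0 1, 0, ?_⟩⟩
    intro h0
    have : ‖(EuclideanSpace.single 0 1 : EuclideanSpace ℂ (Fin n))‖ = 0 := by rw [h0, norm_zero]
    simp at this
  set Φ := Matrix.toEuclideanCLM (n := Fin n) (𝕜 := ℂ) with hΦ
  set B := Φ A - l • (1 : EuclideanSpace ℂ (Fin n) →L[ℂ] _) with hB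
  have hBmat : B = Φ (A - l • (1 : Matrix (Fin n) (Fin n) ℂ)) := by
    rw [hB, map_sub, map_smul, map_one]
  rcases eq_or_ne B 0 with h0 | h0
  · exact scalar_case hn (sub_eq_zero.mp h0) hq0 hq1 p M h
  have hR : 0 < ‖B‖ := norm_pos_iff.mpr h0
  have hstar : ContinuousLinearMap.adjoint (Φ U) = Φ (star U) := by
    rw [map_star]; rfl
  obtain ⟨x, hx1, hx2, hx3, hx4, hx5⟩ := sym_vector B h0 (Φ U)
    (by rw [hstar, ← map_mul, (Matrix.mem_unitaryGroup_iff'.mp hU), map_one])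
    (by rw [hstar, ← map_mul, (Matrix.mem_unitaryGroup_iff.mp hU), map_one]) ω hω1 hω2
    (by rw [hBmat, ← map_mul, hAU, map_smul, map_mul])
  set r : ℝ := Real.sqrt (1 - ‖q‖ ^ 2) with hr
  have hr35 : 3 / 5 ≤ r := by
    refine Real.le_sqrt_of_sq_le ?_
    nlinarith
  have hrq : 1 ≤ (1 + r) / (2 * ‖q‖) := by
    rw [one_le_div (by positivity)]
    linarith
  have hρ0 : 0 < (1 + r) / (2 * ‖q‖) * ‖B‖ := by positivity
  rw [opNorm, toCLM_aeval]
  refine circle_crit _ l hρ0 (by rw [← hΦ, ← hB]; nlinarith) p M fun ζ hζ => h _ ?_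
  obtain ⟨u, y, hu1, hy1, hy2, hy3⟩ := nilp_circle hx1 hR hx2 hx3 hx4 hx5 hq0 hq1 hζ
  refine ⟨q * (l + (((1 + r) / (2 * ‖q‖) * ‖B‖ : ℝ) : ℂ) * ζ), ⟨u, y, hu1, hy1, hy2, ?_⟩, ?_⟩
  · have h1 : Matrix.toEuclideanCLM (𝕜 := ℂ) A u = l • u + B u := by
      rw [hB]; simp [hΦ]
    rw [h1, inner_add_right, inner_smul_right, hy2, hy3]
    ring
  · rw [mul_comm q, mul_div_assoc, div_self hq0, mul_one]

end Pool.Agent.T2h95.QR
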