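import Pool.Agent.Helper654.PtakL

set_option autoImplicit false

open Polynomial Filter Topology

namespace Pool.Agent.T2h95.QR

variable {ι : Type*} [Fintype ι] [Nonempty ι]

/-- von Neumann's inequality for contractions on a finite-dimensional Hilbert space -/
theorem vN (T : EuclideanSpace ℂ ι →L[ℂ] EuclideanSpace ℂ ι) (hT : ‖T‖ ≤ 1) (F : ℂ[X]) (M : ℝ)
    (hF : ∀ ζ : ℂ, ‖ζ‖ = 1 → ‖F.eval ζ‖ ≤ M) : ‖aeval T F‖ ≤ M := by
  classical
  have key : ∀ r : ℝ, 0 < r → r < 1 → ‖aeval ((r : ℂ) • T) F‖ ≤ M := by
    intro r hr0 hr1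
    set R : EuclideanSpace ℂ ι →L[ℂ] EuclideanSpace ℂ ι := (r : ℂ) • T with hR
    have hRn : ‖R‖ ≤ r := by
      rw [hR, norm_smul, Complex.norm_real, Real.norm_eq_abs, abs_of_pos hr0]
      nlinarith
    set L : EuclideanSpace ℂ ι →ₗ[ℂ] EuclideanSpace ℂ ι := R.toLinearMap with hL
    set P : ℂ[X] := L.charpoly with hP
    have hmon : P.Monic := LinearMap.charpoly_monic L
    have hPprod : P = (P.roots.map fun a => X - C a).prod :=
      (IsAlgClosed.splits P).eq_prod_roots_of_monic hmon
    have hdeg : P.natDegree = Fintype.card ι := by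
      rw [hP, LinearMap.charpoly_natDegree, finrank_euclideanSpace]
    have hcard : P.roots.card = Fintype.card ι := by
      rw [← hdeg]; exact (IsAlgClosed.splits P).natDegree_eq_card_roots.symm
    have hroot : ∀ a ∈ P.roots, ‖a‖ ≤ r := by
      intro a ha
      have h1 : P.IsRoot a := (Polynomial.mem_roots hmon.ne_zero).mp ha
      have h2 : Module.End.HasEigenvalue L a := by
        rw [Module.End.hasEigenvalue_iff_isRoot_charpoly]; exact h1
      obtain ⟨v, hv⟩ := h2.exists_hasEigenvector
      have h3 : L v = a • v := hv.apply_eq_smul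
      have h4 : v ≠ 0 := hv.2
      have h5 : ‖a‖ * ‖v‖ ≤ r * ‖v‖ := by
        rw [← norm_smul, ← h3]
        exact (R.le_opNorm v).trans (mul_le_mul_of_nonneg_right hRn (norm_nonneg v))
      exact le_of_mul_le_mul_right h5 (norm_pos_iff.mpr h4)
    set l := P.roots.toList with hl
    have hlen : l.length = Fintype.card ι := by rw [hl, Multiset.length_toList, hcard]
    obtain ⟨m, hm⟩ : ∃ m, l.length = m + 1 := ⟨Fintype.card ι - 1, by
      have : 0 < Fintype.card ι := Fintype.card_pos
      omega⟩
    set z : Fin (m + 1) → ℂ := fun i => l.get (Fin.cast hm.symm i) with hz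
    have hzmem : ∀ i, z i ∈ P.roots := fun i => by
      rw [← Multiset.mem_toList]; exact List.get_mem _ _
    have hprod : P = ∏ j, (X - C (z j)) := by
      have h1 : (P.roots.map fun a => X - C a).prod = (l.map fun a => X - C a).prod := by
        conv_lhs => rw [← Multiset.coe_toList P.roots]
        rw [Multiset.map_coe, Multiset.prod_coe]
      rw [hPprod, h1]
      have h2 : (l.map fun a => X - C a).prod = ∏ i : Fin l.length, (X - C (l.get i)) := by
        rw [← List.prod_ofFn]
        congr 1
        apply List.ext_get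
        · simp
        · intro i h h'; simp
      rw [h2]
      exact (Equiv.prod_comp (finCongr hm.symm) fun i : Fin l.length => (X - C (l.get i))).symm
    have hann : aeval R (∏ j, (X - C (z j))) = 0 := by
      rw [← hprod]
      have h1 : aeval L P = 0 := LinearMap.aeval_self_charpoly L
      ext1 v
      have h2 : ∀ (G : ℂ[X]) (v : EuclideanSpace ℂ ι), (aeval R G) v = (aeval L G) v := by
        intro G v
        induction G using Polynomial.induction_on' with
        | add p q hp hq => simp only [map_add, ContinuousLinearMap.add_apply, LinearMap.add_apply, hp, hq]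
        | monomial k a =>
          simp only [aeval_monomial]
          have h3 : ∀ (k : ℕ) (v : EuclideanSpace ℂ ι), (R ^ k) v = (L ^ k) v := by
            intro k
            induction k with
            | zero => intro v; simp
            | succ k ih =>
              intro v
              rw [pow_succ, pow_succ, ContinuousLinearMap.mul_apply, Module.End.mul_apply, ih]
              rfl
          rw [ContinuousLinearMap.mul_apply, Module.End.mul_apply, h3]
          rfl
      rw [h2, h1]; rfl
    exact Pool.Agent.Helper654.Ptak.vN_poly hr0 hr1 z (fun j => hroot _ (hzmem j)) R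
      (hRn.trans hr1.le) hann F M hF
  have hlim : Tendsto (fun k : ℕ => aeval (((1 - 1 / ((k : ℝ) + 2) : ℝ) : ℂ) • T) F) atTop
      (𝓝 (aeval T F)) := by
    have h1 : Continuous (fun c : ℂ => aeval (c • T) F) := by
      simp only [aeval_eq_sum_range]
      fun_prop
    have h2 : Tendsto (fun k : ℕ => (((1 - 1 / ((k : ℝ) + 2) : ℝ)) : ℂ)) atTop (𝓝 ((1 : ℝ) : ℂ)) := by
      refine (Complex.continuous_ofReal.tendsto 1).comp ?_
      have h3 : Tendsto (fun k : ℕ => 1 / ((k : ℝ) + 2)) atTop (𝓝 0) := by
        refine Tendsto.div_atTop tendsto_const_nhds ?_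
        exact tendsto_atTop_add_const_right _ _ tendsto_natCast_atTop_atTop
      have := (tendsto_const_nhds (x := (1 : ℝ))).sub h3
      simpa using this
    have h4 := (h1.tendsto ((1 : ℝ) : ℂ)).comp h2
    have h5 : aeval (((1 : ℝ) : ℂ) • T) F = aeval T F := by
      rw [Complex.ofReal_one, one_smul]
    rw [← h5]
    exact h4
  refine le_of_tendsto hlim.norm (Eventually.of_forall fun k => key _ ?_ ?_)
  · have : (0 : ℝ) ≤ k := Nat.cast_nonneg k
    rw [sub_pos, div_lt_one (by linarith)]; linarith
  · have : (0 : ℝ) ≤ k := Nat.cast_nonneg k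
    have : 0 < 1 / ((k : ℝ) + 2) := by positivity
    linarith

end Pool.Agent.T2h95.QR
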